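import Pool.Agent.Helper54.TS.Two
import Pool.Agent.Helper3.FJ.Tree

/-!
# Groups acting on trees with a homomorphism which is injective on the edge stabilizers
-/

set_option autoImplicit false

namespace Pool.Agent.Helper54.TS

open Pool.Agent.Helper29.BA Pool.Agent.Helper29.PA Pool.Agent.T59

variable {C : ∀ (G : Type) [Group G], Prop}

section

/-- A tree as a complex. -/
def toCpx {V : Type} (T : SimpleGraph V) : Pool.Agent.Helper3.FJ.Cpx V where
  adj := T.Adj
  tri _ _ _ := False
  adj_symm _ _ h := h.symm
  adj_irrefl _ h := h.ne rfl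
  tri_rot _ _ _ h := h
  tri_flip _ _ _ h := h
  tri_adj _ _ _ h := h.elim

theorem toCpx_simplyConn {V : Type} {T : SimpleGraph V} (hT : T.IsTree) :
    (toCpx T).SimplyConn := by
  refine ⟨hT.connected.nonempty, fun u v => ?_, fun H _ c hc => ?_⟩
  · obtain ⟨p⟩ := hT.connected u v
    induction p with
    | nil => exact Relation.ReflTransGen.refl
    | cons h _ ih => exact Relation.ReflTransGen.head h ih
  · obtain ⟨W, hW⟩ := exists_potential c hT fun u v huv => eq_inv_of_mul_eq_one_right (hc.1 u v huv)
    exact ⟨W, fun u v huv => by rw [hW u v huv, inv_mul_cancel_left]⟩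

/-- Groups acting on trees with homomorphisms to groups of the class which are injective on the
stabilizers of single vertices. -/
theorem mem_of_vertices (hC : ExtClass C) {H V : Type} [Group H] [MulAction H V]
    {T : SimpleGraph V} (hT : TreeAct H V T)
    (hf : ∀ v : V, ∃ (B : Type) (_ : Group B) (f : H →* B), C B ∧
      ∀ h : H, h • v = v → f h = 1 → h = 1) : C H := by
  classical
  refine Pool.Agent.Helper3.FJ.tree hC (toCpx T) (toCpx_simplyConn hT.tree)
    (fun _ _ _ h => h) (fun g u v h => hT.adj g h) (fun g u v h h1 h2 => hT.noinv g h h1 h2)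
    fun K => ?_
  induction K using Finset.induction_on with
  | empty =>
    refine ⟨Unit, inferInstance, 1, hC.finite Unit inferInstance, fun v hv => ?_⟩
    simp at hv
  | insert v K _ ih =>
    obtain ⟨Q, _, f, hQ, hf1⟩ := ih
    obtain ⟨B, _, f', hB, hf2⟩ := hf v
    refine ⟨Q × B, inferInstance, f.prod f', hC.prod _ _ hQ hB, fun w hw g hg h => ?_⟩
    rcases Finset.mem_insert.1 hw with rfl | hw
    · exact hf2 g hg (congrArg Prod.snd h)
    · exact hf1 w hw g hg (congrArg Prod.fst h)

/-- **Theorem E.** Groups acting on trees with vertex stabilizers in the class and a homomorphism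
to a group of the class which is injective on the stabilizers of the edges. -/
theorem mem_of_edges (hC : ExtClass C) {G Q V : Type} [Group G] [Group Q] [MulAction G V]
    {T : SimpleGraph V} (hT : TreeAct G V T) (π : G →* Q) (hQ : C Q)
    (hv : ∀ v : V, C (MulAction.stabilizer G v))
    (he : ∀ u v, T.Adj u v → ∀ g : G, g • u = u → g • v = v → π g = 1 → g = 1) : C G := by
  set M₀ : Subgroup G := Subgroup.closure (fixSet π.ker V) with hM₀
  have hle : M₀ ≤ π.ker := fix_le π.ker
  have hn : M₀.Normal := by
    refine ⟨fun k hk g => ?_⟩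
    induction hk using Subgroup.closure_induction with
    | mem x hx =>
      obtain ⟨h1, v, hv⟩ := hx
      refine Subgroup.subset_closure ⟨π.normal_ker.conj_mem x h1 g, g • v, ?_⟩
      rw [mul_smul, mul_smul, inv_smul_smul, hv]
    | one => simp
    | mul x y _ _ hx hy =>
      have : g * (x * y) * g⁻¹ = (g * x * g⁻¹) * (g * y * g⁻¹) := by group
      rw [this]
      exact mul_mem hx hy
    | inv x _ hx =>
      have : g * x⁻¹ * g⁻¹ = (g * x * g⁻¹)⁻¹ := by group
      rw [this]
      exact inv_mem hx
  have hQ' : C (G ⧸ π.ker) :=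
    hC.toClosedClass.inj (QuotientGroup.kerLift π) (QuotientGroup.kerLift_injective π) hQ
  have hM : C (G ⧸ M₀) := mem_quot_closure hC hT π.ker M₀ rfl hQ'
  refine hC.ext G (G ⧸ M₀) (QuotientGroup.mk' M₀) hM fun q => ?_
  set H : Subgroup G := (Subgroup.zpowers q).comap (QuotientGroup.mk' M₀) with hH
  have hMH : M₀ ≤ H := by
    intro m hm
    change (m : G ⧸ M₀) ∈ Subgroup.zpowers q
    rw [(QuotientGroup.eq_one_iff m).2 hm]
    exact one_mem _
  have hTH : TreeAct H V T :=
    { tree := hT.tree
      adj := fun g => hT.adj (g : G)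
      noinv := fun g => hT.noinv (g : G) }
  have hgen : M₀.subgroupOf H = Subgroup.closure (fixSet (M₀.subgroupOf H) V) := by
    refine le_antisymm ?_ (fix_le _)
    have h1 : M₀ ≤ (Subgroup.closure (fixSet (M₀.subgroupOf H) V)).map H.subtype := by
      refine (Subgroup.closure_le _).2 ?_
      rintro m ⟨hm, v, hv⟩
      have hm0 : m ∈ M₀ := Subgroup.subset_closure ⟨hm, v, hv⟩
      exact ⟨⟨m, hMH hm0⟩, Subgroup.subset_closure ⟨hm0, v, hv⟩, rfl⟩
    intro m hm
    obtain ⟨m', hm', he'⟩ := h1 (show (m : G) ∈ M₀ from hm)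
    have : m' = m := Subtype.ext he'
    rwa [← this]
  refine mem_of_vertices hC hTH fun v => ?_
  refine exists_vertex hC.toClosedClass hTH (M := M₀.subgroupOf H) hgen ?_ ?_ v ?_
  · intro u w huw m hm h1 h2
    exact Subtype.ext (he u w huw m h1 h2 (hle (show (m : G) ∈ M₀ from hm)))
  · let φ : H →* Subgroup.zpowers q := (QuotientGroup.mk' M₀).subgroupComap (Subgroup.zpowers q)
    have hφ : φ.ker = M₀.subgroupOf H := by
      ext h
      constructor
      · intro h1
        have h2 : ((h : G) : G ⧸ M₀) = 1 := congrArg Subtype.val (show φ h = 1 from h1)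
        exact (QuotientGroup.eq_one_iff (h : G)).1 h2
      · intro h1
        change φ h = 1
        exact Subtype.ext ((QuotientGroup.eq_one_iff (h : G)).2 h1)
    exact isCyclic_of_injective ((QuotientGroup.kerLift φ).comp
      (QuotientGroup.quotientMulEquivOfEq hφ.symm).toMonoidHom)
      ((QuotientGroup.kerLift_injective φ).comp (MulEquiv.injective _))
  · refine hC.toClosedClass.inj (H := MulAction.stabilizer G v)
      { toFun := fun h => ⟨(h : H), h.2⟩
        map_one' := rfl
        map_mul' := fun _ _ => rfl } ?_ (hv v)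
    intro a b hab
    have h1 : ((a : H) : G) = ((b : H) : G) := congrArg (fun x : MulAction.stabilizer G v => (x : G)) hab
    exact Subtype.ext (Subtype.ext h1)

end

end Pool.Agent.Helper54.TS
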