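import Pool.Agent.Helper54.TS.Edge
import Pool.Agent.Helper3.FJ.QuoAct
import Pool.Agent.T59.D

/-!
# Quotients of trees by normal subgroups which are generated by elements with fixed points
-/

set_option autoImplicit false

namespace Pool.Agent.Helper54.TS

open Pool.Agent.Helper29.BA Pool.Agent.Helper29.PA Pool.Agent.T59 Pool.Agent.Helper3.FJ
  Pool.Agent.Helper3.FJ.Cpx

section

/-- Connected graphs on which all functions on the edges have primitives are trees. -/
theorem isTree_of_potential {V : Type} {T : SimpleGraph V} (hc : T.Connected)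
    (hp : ∀ h : V → V → Multiplicative ℤ, (∀ u v, T.Adj u v → h v u = (h u v)⁻¹) →
      ∃ W : V → Multiplicative ℤ, ∀ u v, T.Adj u v → W v = W u * h u v) : T.IsTree := by
  classical
  refine ⟨hc, SimpleGraph.isAcyclic_iff_forall_adj_isBridge.2 fun u v huv => ?_⟩
  rw [SimpleGraph.isBridge_iff]
  intro hr
  obtain ⟨W, hW⟩ := hp (fun a b => if a = u ∧ b = v then Multiplicative.ofAdd 1
    else if a = v ∧ b = u then Multiplicative.ofAdd (-1) else 1) (by
      intro a b hab
      by_cases h1 : a = u ∧ b = v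
      · have h2 : ¬ (b = u ∧ a = v) := fun h => huv.ne (h1.1.symm.trans h.2)
        rw [if_neg h2, if_pos ⟨h1.2, h1.1⟩, if_pos h1]
        rfl
      · by_cases h2 : a = v ∧ b = u
        · rw [if_pos ⟨h2.2, h2.1⟩, if_neg h1, if_pos h2]
          rfl
        · rw [if_neg fun h => h2 ⟨h.2, h.1⟩, if_neg fun h => h1 ⟨h.2, h.1⟩, if_neg h1, if_neg h2,
            inv_one])
  have h1 : ∀ a b, (T.deleteEdges {s(u, v)}).Reachable a b → W b = W a := by
    rintro a b ⟨p⟩
    induction p with
    | nil => rfl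
    | @cons a c b hac _ ih =>
      rw [ih]
      rw [SimpleGraph.deleteEdges_adj] at hac
      rw [hW a c hac.1]
      have h2 : ¬ (a = u ∧ c = v) := by
        rintro ⟨rfl, rfl⟩
        exact hac.2 (Set.mem_singleton _)
      have h3 : ¬ (a = v ∧ c = u) := by
        rintro ⟨rfl, rfl⟩
        exact hac.2 (by rw [Set.mem_singleton_iff, Sym2.eq_swap])
      rw [if_neg h2, if_neg h3, mul_one]
  have h2 := hW u v huv
  rw [h1 u v hr, if_pos ⟨rfl, rfl⟩] at h2
  have h3 := left_eq_mul.1 h2
  exact absurd (ofAdd_eq_one.1 h3) one_ne_zero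

variable {G V : Type} [Group G] [MulAction G V] {T : SimpleGraph V}

/-- The edges at a vertex are determined up to its stabilizer by the orbits of their ends. -/
theorem exists_edge (hT : TreeAct G V T) {N : Subgroup G} [N.Normal]
    (hgen : N = Subgroup.closure (fixSet N V)) {y x x' : V} (h : T.Adj y x) (h' : T.Adj y x')
    (hx : ∃ n ∈ N, n • x = x') : ∃ k ∈ N, k • y = y ∧ k • x' = x := by
  obtain ⟨W, hW⟩ := exists_word hT N
  obtain ⟨n, hn, hnx⟩ := hx
  have h1 : W x' = W x := by
    rw [← hnx]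
    exact word_fix hT N hW n (by rwa [← hgen]) x
  rw [hW _ _ h, hW _ _ h'] at h1
  have h2 := mul_left_cancel h1
  have hred : ∀ x, T.Adj y x → FreeGroup.IsReduced [(pr N y x, true), (pr N x y, false)] := by
    intro x hx
    rw [FreeGroup.isReduced_cons_cons]
    refine ⟨fun h => ?_, FreeGroup.IsReduced.singleton⟩
    obtain ⟨k, _, h1, h2⟩ := pr_eq_iff.1 h
    exact absurd h2 (hT.noinv k hx h1)
  have h3 := mk_inj (hred x' h') (hred x h) (by
    have e : ∀ x, FreeGroup.mk [(pr N y x, true), (pr N x y, false)] =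
        FreeGroup.of (pr N y x) * (FreeGroup.of (pr N x y))⁻¹ := fun x => rfl
    rw [e, e]
    exact h2)
  have h4 : pr N y x' = pr N y x := by
    have := congrArg (fun l : List (PairOrb N V × Bool) => l.head?) h3
    simpa using this
  obtain ⟨k, hk, h5, h6⟩ := pr_eq_iff.1 h4
  exact ⟨k, hk, h5, h6⟩

/-- Adjacent vertices are in different orbits. -/
theorem adj_ne (hT : TreeAct G V T) {N : Subgroup G} [N.Normal]
    (hgen : N = Subgroup.closure (fixSet N V)) {x y : V} (h : T.Adj x y) :
    (qv x : QV N V) ≠ qv y := by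
  intro he
  obtain ⟨n, hn⟩ := (qv_eq N).1 he
  obtain ⟨W, hW⟩ := exists_word hT N
  have h1 : W y = W x := by
    rw [← hn]
    exact word_fix hT N hW n (by rw [← hgen]; exact n.2) x
  rw [hW _ _ h, mul_eq_left, mul_inv_eq_one] at h1
  have h2 := FreeGroup.of_injective h1
  obtain ⟨k, _, h3, h4⟩ := pr_eq_iff.1 h2
  exact absurd h4 (hT.noinv k h h3)

variable (T) in
/-- The quotient graph. -/
def qT (N : Subgroup G) : SimpleGraph (QV N V) where
  Adj a b := a ≠ b ∧ ∃ x y, qv x = a ∧ qv y = b ∧ T.Adj x y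
  symm := ⟨by
    rintro a b ⟨h, x, y, hx, hy, hxy⟩
    exact ⟨h.symm, y, x, hy, hx, hxy.symm⟩⟩
  loopless := ⟨fun a h => h.1 rfl⟩

theorem qT_adj (hT : TreeAct G V T) {N : Subgroup G} [N.Normal]
    (hgen : N = Subgroup.closure (fixSet N V)) {x y : V} (h : T.Adj x y) :
    (qT T N).Adj (qv x) (qv y) := ⟨adj_ne hT hgen h, x, y, rfl, rfl, h⟩

/-- Edges at a given vertex of the tree over edges of the quotient. -/
theorem exists_lift (hT : TreeAct G V T) {N : Subgroup G} {x : V} {b : QV N V}
    (h : (qT T N).Adj (qv x) b) : ∃ y, qv y = b ∧ T.Adj x y := by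
  obtain ⟨-, x', y', hx, hy, hxy⟩ := h
  obtain ⟨n, hn⟩ := (qv_eq N).1 hx
  refine ⟨n • y', ?_, ?_⟩
  · rw [← hy]
    exact ((qv_eq N).2 ⟨n, rfl⟩).symm
  · rw [← hn]
    exact hT.adj (n : G) hxy

theorem qT_isTree (hT : TreeAct G V T) {N : Subgroup G} [N.Normal]
    (hgen : N = Subgroup.closure (fixSet N V)) : (qT T N).IsTree := by
  have hne : Nonempty (QV N V) := by
    obtain ⟨v⟩ := hT.tree.connected.nonempty
    exact ⟨qv v⟩
  refine isTree_of_potential ?_ fun h hh => ?_
  · refine @SimpleGraph.Connected.mk _ _ ?_ hne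
    intro a b
    obtain ⟨x, rfl⟩ := Quotient.exists_rep a
    obtain ⟨y, rfl⟩ := Quotient.exists_rep b
    change (qT T N).Reachable (qv x) (qv y)
    obtain ⟨p⟩ := hT.tree.connected x y
    induction p with
    | nil => exact SimpleGraph.Reachable.refl _
    | cons h _ ih => exact (qT_adj hT hgen h).reachable.trans ih
  · obtain ⟨W, hW⟩ := exists_potential (fun x y => h (qv x : QV N V) (qv y)) hT.tree
      (fun x y hxy => hh _ _ (qT_adj hT hgen hxy))
    have hq : ∀ n ∈ N, ∀ x, (qv (n • x) : QV N V) = qv x := fun n hn x =>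
      ((qv_eq N).2 ⟨⟨n, hn⟩, rfl⟩).symm
    have hconst : ∀ n ∈ N, ∀ x y, W (n • x) * (W x)⁻¹ = W (n • y) * (W y)⁻¹ := by
      intro n hn x y
      obtain ⟨p⟩ := hT.tree.connected x y
      induction p with
      | nil => rfl
      | @cons a b c hab _ ih =>
        rw [← ih, hW _ _ hab, hW _ _ (hT.adj n hab), hq n hn, hq n hn, mul_inv_rev,
          ← mul_assoc, mul_assoc (W (n • a)), mul_inv_cancel, mul_one]
    have hinv : ∀ n ∈ N, ∀ x, W (n • x) = W x := by
      intro n hn
      have hn' := hn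
      rw [hgen] at hn
      induction hn using Subgroup.closure_induction with
      | mem m hm =>
        obtain ⟨hm, v, hv⟩ := hm
        intro x
        have := hconst m hm x v
        rw [hv, mul_inv_cancel, mul_inv_eq_one] at this
        exact this
      | one => intro x; rw [one_smul]
      | mul a b ha hb iha ihb =>
        intro x
        rw [mul_smul, iha (by rw [hgen]; exact ha), ihb (by rw [hgen]; exact hb)]
      | inv a ha iha =>
        intro x
        rw [← iha (by rw [hgen]; exact ha) (a⁻¹ • x), smul_inv_smul]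
    refine ⟨Quotient.lift W (by
      rintro x y ⟨n, rfl⟩
      exact (hinv n n.2 x).symm), ?_⟩
    intro a b hab
    obtain ⟨x, rfl⟩ := Quotient.exists_rep a
    obtain ⟨y, rfl, hxy⟩ := exists_lift hT (x := x) hab
    exact hW x y hxy

theorem qT_act (hT : TreeAct G V T) {N : Subgroup G} [hN : N.Normal]
    (hgen : N = Subgroup.closure (fixSet N V)) : TreeAct (G ⧸ N) (QV N V) (qT T N) where
  tree := qT_isTree hT hgen
  adj g a b hab := by
    obtain ⟨g, rfl⟩ := QuotientGroup.mk_surjective g
    obtain ⟨x, rfl⟩ := Quotient.exists_rep a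
    obtain ⟨y, rfl, hxy⟩ := exists_lift hT (x := x) hab
    exact qT_adj hT hgen (hT.adj g hxy)
  noinv g a b hab h1 h2 := by
    obtain ⟨g, rfl⟩ := QuotientGroup.mk_surjective g
    obtain ⟨x, rfl⟩ := Quotient.exists_rep a
    obtain ⟨y, rfl, hxy⟩ := exists_lift hT (x := x) hab
    have h3 : (qv (g • x) : QV N V) = qv y := h1
    have h4 : (qv (g • y) : QV N V) = qv x := h2
    obtain ⟨n, hn⟩ := (qv_eq N).1 h3
    obtain ⟨n', hn'⟩ := (qv_eq N).1 h4
    have hn1 : (n : G) • g • x = y := hn
    have hn2 : (n' : G) • g • y = x := hn'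
    -- `n g` maps `x` to `y` and `y` to a vertex in the orbit of `x`
    have h5 : T.Adj y ((n : G) • g • y) := by
      have := hT.adj ((n : G) * g) hxy
      rw [mul_smul, mul_smul, hn1] at this
      exact this
    obtain ⟨k, hk, h6, h7⟩ := exists_edge hT hgen hxy.symm h5 ⟨n * (n' : G)⁻¹,
      mul_mem n.2 (inv_mem n'.2), by rw [mul_smul, inv_smul_eq_iff.2 hn2.symm]⟩
    refine hT.noinv (k * (n * g)) hxy ?_ ?_
    · rw [mul_smul, mul_smul, hn1, h6]
    · rw [mul_smul, mul_smul, h7]

end

end Pool.Agent.Helper54.TS
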