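import Pool.Agent.Helper54.TS.Tw

/-!
# Retractions to vertex stabilizers

Let `H` act on a tree, let `M` be a normal subgroup which is generated by elements with fixed
points and let the elements of `M` which fix an edge be trivial. Let `v` be a vertex and let `Rv` be
the subgroup generated by the elements of `M` with a fixed point outside the `M`-orbit of `v`. Then
the stabilizer of the `M`-orbit of `v` is the semidirect product of `Rv` and the stabilizer of `v`.
-/

set_option autoImplicit false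

namespace Pool.Agent.Helper54.TS

open Pool.Agent.Helper29.BA Pool.Agent.Helper29.PA Pool.Agent.T59

section

variable {H V : Type} [Group H] [MulAction H V] {T : SimpleGraph V}

/-- The subgroup generated by the elements of `M` with a fixed point outside the orbit of `v`. -/
def Rv (M : Subgroup H) (v : V) : Subgroup H :=
  Subgroup.closure {m | m ∈ M ∧ ∃ w, (∀ g ∈ M, g • v ≠ w) ∧ m • w = w}

theorem Rv_le (M : Subgroup H) (v : V) : Rv M v ≤ M :=
  (Subgroup.closure_le _).2 fun _ h => h.1

/-- The stabilizer of the `M`-orbit of `v`. -/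
def PP (M : Subgroup H) [M.Normal] (v : V) : Subgroup H where
  carrier := {h | ∃ m ∈ M, h • v = m • v}
  one_mem' := ⟨1, one_mem _, rfl⟩
  mul_mem' := by
    rintro a b ⟨m, hm, ha⟩ ⟨n, hn, hb⟩
    refine ⟨a * n * a⁻¹ * m, mul_mem (Subgroup.Normal.conj_mem ‹_› n hn a) hm, ?_⟩
    rw [mul_smul, hb, mul_smul (a * n * a⁻¹), ← ha, mul_smul, mul_smul, inv_smul_smul]
  inv_mem' := by
    rintro a ⟨m, hm, ha⟩
    refine ⟨a⁻¹ * m⁻¹ * a, ?_, ?_⟩
    · have := Subgroup.Normal.conj_mem ‹_› m⁻¹ (inv_mem hm) a⁻¹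
      rwa [inv_inv] at this
    · rw [mul_smul, ha, mul_smul, inv_smul_smul]

theorem M_le_PP (M : Subgroup H) [M.Normal] (v : V) : M ≤ PP M v := fun m hm => ⟨m, hm, rfl⟩

theorem stab_le_PP (M : Subgroup H) [M.Normal] (v : V) : MulAction.stabilizer H v ≤ PP M v :=
  fun m hm => ⟨1, one_mem _, by rw [one_smul]; exact hm⟩

theorem Rv_conj (M : Subgroup H) [M.Normal] (v : V) {r h : H} (hr : r ∈ Rv M v)
    (hh : h ∈ PP M v) : h * r * h⁻¹ ∈ Rv M v := by
  induction hr using Subgroup.closure_induction with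
  | mem x hx =>
    obtain ⟨hxM, w, hw, hxw⟩ := hx
    refine Subgroup.subset_closure ⟨Subgroup.Normal.conj_mem ‹_› x hxM h, h • w, ?_, ?_⟩
    · intro g hg hgw
      obtain ⟨m, hm, hm'⟩ := inv_mem hh
      refine hw (h⁻¹ * g * h * m) (mul_mem ?_ hm) ?_
      · have := Subgroup.Normal.conj_mem ‹_› g hg h⁻¹
        rwa [inv_inv] at this
      · rw [mul_smul, ← hm', mul_smul, smul_inv_smul, mul_smul, hgw, inv_smul_smul]
    · rw [mul_smul, mul_smul, inv_smul_smul, hxw]
  | one => simp
  | mul x y _ _ hx hy =>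
    have : h * (x * y) * h⁻¹ = (h * x * h⁻¹) * (h * y * h⁻¹) := by group
    rw [this]
    exact mul_mem hx hy
  | inv x _ hx =>
    have : h * x⁻¹ * h⁻¹ = (h * x * h⁻¹)⁻¹ := by group
    rw [this]
    exact inv_mem hx

/-- The retraction is injective on the stabilizer. -/
theorem Rv_fix (hT : TreeAct H V T) {M : Subgroup H}
    (hedge : ∀ u w, T.Adj u w → ∀ m ∈ M, m • u = u → m • w = w → m = 1) (v : V) {r : H}
    (hr : r ∈ Rv M v) (hv : r • v = v) : r = 1 := by
  have hT0 : TreeAct M V T :=
    { tree := hT.tree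
      adj := fun g => hT.adj (g : H)
      noinv := fun g => hT.noinv (g : H) }
  obtain ⟨F, ⟨y, hy⟩, hF⟩ := exists_hom hT0 v (1 : M →* MulAction.stabilizer M v)
    (MonoidHom.id _) (fun w hw => ⟨1, fun n hn => by
      have h1 : (n : M) = 1 := Subtype.ext (hedge v w hw _ n.1.2 n.2 hn)
      have h2 : n = 1 := Subtype.ext h1
      rw [h2]
      simp⟩)
  have hle : Rv M v ≤ F.ker.map M.subtype := by
    refine (Subgroup.closure_le _).2 ?_
    rintro m ⟨hm, w, hw, hmw⟩
    refine ⟨⟨m, hm⟩, ?_, rfl⟩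
    obtain ⟨z, hz⟩ := hF w (fun g hg => hw g g.2 hg) ⟨m, hm⟩ hmw
    change F ⟨m, hm⟩ = 1
    rw [hz]
    simp
  obtain ⟨k, hk, hkr⟩ := hle hr
  have hkv : k ∈ MulAction.stabilizer M v := by
    change (k : H) • v = v
    rw [show (k : H) = r from hkr]
    exact hv
  have h1 := hy ⟨k, hkv⟩
  have h2 : F k = 1 := hk
  change F k = y * ⟨k, hkv⟩ * y⁻¹ at h1
  rw [h2] at h1
  have h3 : (⟨k, hkv⟩ : MulAction.stabilizer M v) = 1 := by
    have := congrArg (fun z => y⁻¹ * z * y) h1
    simp only [mul_one, inv_mul_cancel] at this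
    rw [this]
    group
  have h4 : k = 1 := congrArg Subtype.val h3
  rw [← hkr, h4]
  rfl

/-- The folding argument. -/
theorem exists_Rv (hT : TreeAct H V T) {M : Subgroup H} [M.Normal]
    (hgen : M = Subgroup.closure (fixSet M V)) (v : V) (n : ℕ) :
    ∀ p : ℕ → V, (∀ i < n, T.Adj (p i) (p (i + 1))) → p 0 = v → (∃ m ∈ M, m • v = p n) →
      ∃ r ∈ Rv M v, r • v = p n := by
  obtain ⟨W, hW⟩ := exists_word hT M
  have hinv : ∀ m ∈ M, ∀ u, W (m • u) = W u := by
    intro m hm u
    rw [hgen] at hm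
    exact word_fix hT M hW m hm u
  induction n using Nat.strong_induction_on with
  | _ n ih =>
    intro p hp h0 hm
    obtain ⟨m, hm, hmn⟩ := hm
    rcases Nat.eq_zero_or_pos n with rfl | hn
    · exact ⟨1, one_mem _, by rw [one_smul, h0]⟩
    · by_cases hb : ∀ i, i + 1 < n → pr M (p (i + 1)) (p i) ≠ pr M (p (i + 1)) (p (i + 2))
      · exact absurd (by rw [← hmn, hinv m hm, h0]) (word_ne hT M hW p n hn hp hb)
      · push Not at hb
        obtain ⟨i, hi, hb⟩ := hb
        obtain ⟨k, hk, h1, h2⟩ := pr_eq_iff.1 hb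
        by_cases hw : ∃ m' ∈ M, m' • v = p (i + 1)
        · obtain ⟨r1, hr1, hr1'⟩ := ih (i + 1) hi p (fun j hj => hp j (by omega)) h0 hw
          obtain ⟨r2, hr2, hr2'⟩ := ih (n - (i + 1)) (by omega)
            (fun j => r1⁻¹ • p (i + 1 + j)) (fun j hj => by
              have := hT.adj r1⁻¹ (hp (i + 1 + j) (by omega))
              exact this) (by
              change r1⁻¹ • p (i + 1) = v
              rw [← hr1', inv_smul_smul]) ⟨r1⁻¹ * m, mul_mem (inv_mem (Rv_le M v hr1)) hm, by
              rw [mul_smul, hmn]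
              congr 2
              omega⟩
          refine ⟨r1 * r2, mul_mem hr1 hr2, ?_⟩
          have h3 : i + 1 + (n - (i + 1)) = n := by omega
          change r2 • v = r1⁻¹ • p (i + 1 + (n - (i + 1))) at hr2'
          rw [mul_smul, hr2', h3, smul_inv_smul]
        · have hkR : k ∈ Rv M v := Subgroup.subset_closure ⟨hk, p (i + 1), fun g hg hgw =>
            hw ⟨g, hg, hgw⟩, h1⟩
          have h2' : k⁻¹ • p (i + 2) = p i := by rw [← h2, inv_smul_smul]
          let q : ℕ → V := fun j => if j ≤ i then p j else k⁻¹ • p (j + 2)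
          have hqn : q (n - 2) = k⁻¹ • p n := by
            by_cases hin : n - 2 ≤ i
            · have : n = i + 2 := by omega
              subst this
              change (if i + 2 - 2 ≤ i then p (i + 2 - 2) else k⁻¹ • p (i + 2 - 2 + 2)) = _
              rw [if_pos hin, h2']
              rfl
            · change (if n - 2 ≤ i then p (n - 2) else k⁻¹ • p (n - 2 + 2)) = _
              rw [if_neg hin]
              congr 2
              omega
          obtain ⟨r, hr, hr'⟩ := ih (n - 2) (by omega) q (by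
            intro j hj
            by_cases h3 : j + 1 ≤ i
            · change T.Adj (if j ≤ i then p j else k⁻¹ • p (j + 2))
                (if j + 1 ≤ i then p (j + 1) else k⁻¹ • p (j + 1 + 2))
              rw [if_pos (by omega), if_pos h3]
              exact hp j (by omega)
            · by_cases h4 : j ≤ i
              · have h5 : j = i := by omega
                subst h5
                change T.Adj (if j ≤ j then p j else k⁻¹ • p (j + 2))
                  (if j + 1 ≤ j then p (j + 1) else k⁻¹ • p (j + 1 + 2))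
                rw [if_pos le_rfl, if_neg (by omega), ← h2']
                exact hT.adj _ (hp (j + 2) (by omega))
              · change T.Adj (if j ≤ i then p j else k⁻¹ • p (j + 2))
                  (if j + 1 ≤ i then p (j + 1) else k⁻¹ • p (j + 1 + 2))
                rw [if_neg h4, if_neg h3]
                exact hT.adj _ (hp (j + 2) (by omega))) (by
            change (if 0 ≤ i then p 0 else k⁻¹ • p (0 + 2)) = v
            rw [if_pos (Nat.zero_le i), h0]) ⟨k⁻¹ * m, mul_mem (inv_mem hk) hm, by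
              rw [hqn, mul_smul, hmn]⟩
          refine ⟨k * r, mul_mem hkR hr, ?_⟩
          rw [mul_smul, hr', hqn, smul_inv_smul]

theorem exists_Rv' (hT : TreeAct H V T) {M : Subgroup H} [M.Normal]
    (hgen : M = Subgroup.closure (fixSet M V)) (v : V) {m : H} (hm : m ∈ M) :
    ∃ r ∈ Rv M v, r • v = m • v := by
  obtain ⟨p⟩ := hT.tree.connected v (m • v)
  obtain ⟨r, hr, hr'⟩ := exists_Rv hT hgen v p.length p.getVert
    (fun i hi => p.adj_getVert_succ hi) p.getVert_zero ⟨m, hm, p.getVert_length.symm⟩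
  exact ⟨r, hr, hr'.trans p.getVert_length⟩

/-- **The retraction.** -/
theorem exists_retract (hT : TreeAct H V T) {M : Subgroup H} [M.Normal]
    (hgen : M = Subgroup.closure (fixSet M V))
    (hedge : ∀ u w, T.Adj u w → ∀ m ∈ M, m • u = u → m • w = w → m = 1) (v : V) :
    ∃ ρ : PP M v →* MulAction.stabilizer H v,
      ∀ n : MulAction.stabilizer H v, ρ ⟨n, stab_le_PP M v n.2⟩ = n := by
  have hex : ∀ h : PP M v, ∃ n : MulAction.stabilizer H v, (h : H) * (n : H)⁻¹ ∈ Rv M v := by
    rintro ⟨h, m, hm, hh⟩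
    obtain ⟨r, hr, hr'⟩ := exists_Rv' hT hgen v hm
    refine ⟨⟨r⁻¹ * h, ?_⟩, ?_⟩
    · rw [MulAction.mem_stabilizer_iff, mul_smul, hh, ← hr', inv_smul_smul]
    · change h * (r⁻¹ * h)⁻¹ ∈ Rv M v
      have : h * (r⁻¹ * h)⁻¹ = r := by group
      rw [this]
      exact hr
  have huniq : ∀ (h : H) (n n' : MulAction.stabilizer H v), h * (n : H)⁻¹ ∈ Rv M v →
      h * (n' : H)⁻¹ ∈ Rv M v → n = n' := by
    intro h n n' h1 h2
    have h3 : (n : H) * (n' : H)⁻¹ ∈ Rv M v := by
      have := mul_mem (inv_mem h1) h2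
      have e : (h * (n : H)⁻¹)⁻¹ * (h * (n' : H)⁻¹) = n * (n' : H)⁻¹ := by group
      rwa [e] at this
    have h4 := Rv_fix hT hedge v h3 (by
      rw [mul_smul, inv_smul_eq_iff.2 (n'.2 : (n' : H) • v = v).symm]
      exact n.2)
    exact Subtype.ext (mul_inv_eq_one.1 h4)
  choose ρ hρ using hex
  refine ⟨⟨⟨ρ, ?_⟩, ?_⟩, fun n => ?_⟩
  · refine huniq 1 _ _ (hρ 1) ?_
    simp
  · intro a b
    refine huniq ((a * b : PP M v) : H) _ _ (hρ (a * b)) ?_
    have h1 := hρ a
    have h2 := Rv_conj M v (hρ b) (stab_le_PP M v (ρ a).2)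
    have h3 := mul_mem h1 h2
    have e : (a : H) * ((ρ a : MulAction.stabilizer H v) : H)⁻¹ *
        (((ρ a : MulAction.stabilizer H v) : H) * ((b : H) *
          ((ρ b : MulAction.stabilizer H v) : H)⁻¹) *
          ((ρ a : MulAction.stabilizer H v) : H)⁻¹) =
        ((a * b : PP M v) : H) * ((ρ a * ρ b : MulAction.stabilizer H v) : H)⁻¹ := by
      rw [Subgroup.coe_mul, Subgroup.coe_mul]
      group
    rwa [e] at h3
  · change ρ ⟨n, stab_le_PP M v n.2⟩ = n
    exact huniq n _ _ (hρ ⟨n, stab_le_PP M v n.2⟩) (by simp)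

end

end Pool.Agent.Helper54.TS
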