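import Pool.Agent.Helper54.TS.Quo

/-!
# Groups acting on trees: the general theorem
-/

set_option autoImplicit false

namespace Pool.Agent.Helper54.TS

open Pool.Agent.Helper29.BA Pool.Agent.Helper29.PA Pool.Agent.T59 Pool.Agent.Helper3.FJ
  Pool.Agent.Helper3.FJ.Cpx

section

/-- A compatible series of length `m` with abelian factors of groups of elements of the kernel of
`p` which fix a vertex. The last groups `S m v` contain the elements of the kernel which fix an edge
at `v`, and the stabilizer of `v` modulo `S m v` is in the class `C`. -/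
structure PSeries (C : ∀ (G : Type) [Group G], Prop) {G Q V : Type} [Group G] [Group Q]
    [MulAction G V] (T : SimpleGraph V) (p : G →* Q) (m : ℕ) (S : ℕ → V → Subgroup G) : Prop where
  bot : ∀ v, S 0 v = ⊥
  le : ∀ v a, a ∈ S m v → a • v = v ∧ p a = 1
  mono : ∀ i < m, ∀ v, S i v ≤ S (i + 1) v
  conj : ∀ i ≤ m, ∀ (g : G) v a, a ∈ S i v → g * a * g⁻¹ ∈ S i (g • v)
  edge : ∀ i ≤ m, ∀ u v a, T.Adj u v → a ∈ S i u → a • v = v → a ∈ S i v
  comm : ∀ i < m, ∀ v, ∀ a ∈ S (i + 1) v, ∀ b ∈ S (i + 1) v, a * b * a⁻¹ * b⁻¹ ∈ S i v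
  cut : ∀ u v a, T.Adj u v → a • u = u → a • v = v → p a = 1 → a ∈ S m v
  quot : ∀ v, ∃ (B : Type) (_ : Group B) (f : MulAction.stabilizer G v →* B), C B ∧
    ∀ a : MulAction.stabilizer G v, f a = 1 ↔ (a : G) ∈ S m v

variable {C : ∀ (G : Type) [Group G], Prop} {G Q V : Type} [Group G] [Group Q] [MulAction G V]
  {T : SimpleGraph V} {p : G →* Q} {m : ℕ} {S : ℕ → V → Subgroup G}

namespace PSeries

theorem normal (hS : PSeries C T p m S) : (Series.M S m).Normal := by
  refine ⟨fun k hk g => ?_⟩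
  induction hk using Subgroup.closure_induction with
  | mem x hx =>
    obtain ⟨v, hv⟩ := hx
    exact Subgroup.subset_closure ⟨g • v, hS.conj m le_rfl g v x hv⟩
  | one => simp
  | mul x y _ _ hx hy =>
    have : g * (x * y) * g⁻¹ = (g * x * g⁻¹) * (g * y * g⁻¹) := by group
    rw [this]
    exact mul_mem hx hy
  | inv x _ hx =>
    have : g * x⁻¹ * g⁻¹ = (g * x * g⁻¹)⁻¹ := by group
    rw [this]
    exact inv_mem hx

theorem M_eq (hS : PSeries C T p m S) :
    Series.M S m = Subgroup.closure (fixSet (Series.M S m) V) := by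
  refine le_antisymm ((Subgroup.closure_le _).2 ?_) (fix_le _)
  rintro a ⟨v, hv⟩
  exact Subgroup.subset_closure ⟨Subgroup.subset_closure ⟨v, hv⟩, v, (hS.le v a hv).1⟩

/-- The stabilizers meet the generated subgroup in the groups of the series. -/
theorem stab (hS : PSeries C T p m S) (hT : TreeAct G V T) (v : V) {a : G}
    (ha : a ∈ Series.M S m) (hv : a • v = v) : a ∈ S m v := by
  obtain ⟨B, _, f, -, hf⟩ := hS.quot v
  set M' : Subgroup G := Subgroup.closure (fixSet p.ker V) with hM'
  have hM'p : M' ≤ p.ker := fix_le _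
  have hT' : TreeAct M' V T :=
    { tree := hT.tree
      adj := fun g => hT.adj (g : G)
      noinv := fun g => hT.noinv (g : G) }
  let j : MulAction.stabilizer M' v →* B := f.comp
    { toFun := fun h => (⟨((h : M') : G), h.2⟩ : MulAction.stabilizer G v)
      map_one' := rfl
      map_mul' := fun _ _ => rfl }
  obtain ⟨F, ⟨y, hy⟩, hF⟩ := exists_hom hT' v (1 : M' →* B) j (fun w hw => ⟨1, fun n hn => by
    have h1 : (((n : M') : G)) ∈ S m v := hS.cut w v _ hw.symm hn n.2 (hM'p n.1.2)
    have h2 : j n = 1 := (hf _).2 h1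
    rw [h2]
    simp⟩)
  have hle : Series.M S m ≤ F.ker.map M'.subtype := by
    refine (Subgroup.closure_le _).2 ?_
    rintro b ⟨u, hu⟩
    obtain ⟨hbu, hbp⟩ := hS.le u b hu
    have hbM : b ∈ M' := Subgroup.subset_closure ⟨hbp, u, hbu⟩
    refine ⟨⟨b, hbM⟩, ?_, rfl⟩
    change F ⟨b, hbM⟩ = 1
    by_cases hu' : ∃ g : M', g • v = u
    · obtain ⟨g, hg⟩ := hu'
      have h1 : ((g : G))⁻¹ * b * g ∈ S m v := by
        have := hS.conj m le_rfl (g : G)⁻¹ u b hu
        rwa [inv_inv, inv_smul_eq_iff.2 (show (u : V) = (g : G) • v from hg.symm)] at this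
      have h2 : (g⁻¹ * ⟨b, hbM⟩ * g : M') • v = v := (hS.le v _ h1).1
      have h3 := hy ⟨g⁻¹ * ⟨b, hbM⟩ * g, h2⟩
      have h4 : j ⟨g⁻¹ * ⟨b, hbM⟩ * g, h2⟩ = 1 := (hf _).2 h1
      rw [h4] at h3
      change F (g⁻¹ * ⟨b, hbM⟩ * g) = y * 1 * y⁻¹ at h3
      rw [mul_one, mul_inv_cancel, map_mul, map_mul, map_inv] at h3
      have h5 := congrArg (fun z => F g * z * (F g)⁻¹) h3
      simp only [mul_one, mul_inv_cancel] at h5
      rw [← h5]
      group
    · push Not at hu'
      obtain ⟨z, hz⟩ := hF u hu' ⟨b, hbM⟩ hbu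
      rw [hz]
      simp
  obtain ⟨k, hk, hka⟩ := hle ha
  have hkv : k ∈ MulAction.stabilizer M' v := by
    change (k : G) • v = v
    rw [show (k : G) = a from hka]
    exact hv
  have h1 := hy ⟨k, hkv⟩
  have h2 : F k = 1 := hk
  change F k = y * j ⟨k, hkv⟩ * y⁻¹ at h1
  rw [h2] at h1
  have h3 : j ⟨k, hkv⟩ = 1 := by
    have := congrArg (fun z => y⁻¹ * z * y) h1
    simp only [mul_one, inv_mul_cancel] at this
    rw [this]
    group
  have h4 : (k : G) ∈ S m v := (hf _).1 h3
  rwa [show (k : G) = a from hka] at h4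

theorem mem_quot (hS : PSeries C T p m S) (hC : ExtClass C) (hT : TreeAct G V T) (hQ : C Q)
    [(Series.M S m).Normal] : C (G ⧸ Series.M S m) := by
  set N := Series.M S m with hN
  have hNp : N ≤ p.ker := (Subgroup.closure_le _).2 fun a ⟨v, hv⟩ => (hS.le v a hv).2
  have hgen : N = Subgroup.closure (fixSet N V) := hS.M_eq
  refine mem_of_edges hC (qT_act hT hgen) (QuotientGroup.lift N p hNp) hQ ?_ ?_
  · intro a
    obtain ⟨x, rfl⟩ := Quotient.exists_rep a
    obtain ⟨B, _, f, hB, hf⟩ := hS.quot x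
    -- the stabilizer of the image is a quotient of the stabilizer
    let q : MulAction.stabilizer G x →* MulAction.stabilizer (G ⧸ N) (qv x : QV N V) :=
      { toFun := fun g => ⟨((g : G) : G ⧸ N), by
          rw [MulAction.mem_stabilizer_iff]
          change (qv ((g : G) • x) : QV N V) = qv x
          rw [show (g : G) • x = x from g.2]⟩
        map_one' := rfl
        map_mul' := fun _ _ => rfl }
    have hq : Function.Surjective q := by
      rintro ⟨g, hg⟩
      obtain ⟨g, rfl⟩ := QuotientGroup.mk_surjective g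
      have h1 : (qv (g • x) : QV N V) = qv x := hg
      obtain ⟨n, hn⟩ := (qv_eq N).1 h1
      have h2 : ((n : G) * g) • x = x := by
        rw [mul_smul]
        exact hn
      refine ⟨⟨(n : G) * g, h2⟩, Subtype.ext ?_⟩
      change (((n : G) * g : G) : G ⧸ N) = g
      rw [QuotientGroup.mk_mul, (QuotientGroup.eq_one_iff (n : G)).2 n.2, one_mul]
    have hqk : q.ker = f.ker := by
      ext g
      rw [MonoidHom.mem_ker, MonoidHom.mem_ker, hf]
      constructor
      · intro h
        have h1 : ((g : G) : G ⧸ N) = 1 := congrArg Subtype.val h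
        exact hS.stab hT x ((QuotientGroup.eq_one_iff (g : G)).1 h1) g.2
      · intro h
        exact Subtype.ext ((QuotientGroup.eq_one_iff (g : G)).2 (Subgroup.subset_closure ⟨x, h⟩))
    have h1 : C (MulAction.stabilizer G x ⧸ f.ker) :=
      hC.toClosedClass.inj (QuotientGroup.kerLift f) (QuotientGroup.kerLift_injective f) hB
    exact hC.iso _ _ ((QuotientGroup.quotientMulEquivOfEq hqk).symm.trans
      (QuotientGroup.quotientKerEquivOfSurjective q hq)) h1
  · intro a b hab g hga hgb hp
    obtain ⟨g, rfl⟩ := QuotientGroup.mk_surjective g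
    obtain ⟨x, rfl⟩ := Quotient.exists_rep a
    obtain ⟨y, rfl, hxy⟩ := exists_lift hT (x := x) hab
    have h1 : (qv (g • x) : QV N V) = qv x := hga
    have h2 : (qv (g • y) : QV N V) = qv y := hgb
    have h3 : p g = 1 := hp
    obtain ⟨n, hn⟩ := (qv_eq N).1 h1
    obtain ⟨n', hn'⟩ := (qv_eq N).1 h2
    have hn1 : (n : G) • g • x = x := hn
    have hn2 : (n' : G) • g • y = y := hn'
    have h5 : T.Adj x ((n : G) • g • y) := by
      have := hT.adj ((n : G) * g) hxy
      rw [mul_smul, mul_smul, hn1] at this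
      exact this
    obtain ⟨k, hk, h6, h7⟩ := exists_edge hT hgen hxy h5 ⟨n * (n' : G)⁻¹,
      mul_mem n.2 (inv_mem n'.2), by rw [mul_smul, inv_smul_eq_iff.2 hn2.symm]⟩
    have h8 : k * (n * g) ∈ S m y := by
      refine hS.cut x y _ hxy ?_ ?_ ?_
      · rw [mul_smul, mul_smul, hn1, h6]
      · rw [mul_smul, mul_smul, h7]
      · rw [map_mul, map_mul, h3, mul_one, hNp hk, hNp n.2, mul_one]
    have h9 : k * (n * g) ∈ N := Subgroup.subset_closure ⟨y, h8⟩
    rw [QuotientGroup.eq_one_iff]
    have h10 := mul_mem (inv_mem n.2) (mul_mem (inv_mem hk) h9)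
    have e : (n : G)⁻¹ * (k⁻¹ * (k * (n * g))) = g := by group
    rwa [e] at h10

/-- The theorem on trees of groups. -/
theorem mem (hS : PSeries C T p m S) (hC : ExtClass C) (hA : HasAbCyclic C) (hT : TreeAct G V T)
    (hQ : C Q) : C G := by
  have hn := hS.normal
  have h1 := hS.mem_quot hC hT hQ
  have hS' : Series T (QuotientGroup.mk' (Series.M S m)) m S :=
    { bot := hS.bot
      top := fun v a => by
        constructor
        · intro h
          exact ⟨(hS.le v a h).1, (QuotientGroup.eq_one_iff a).2 (Subgroup.subset_closure ⟨v, h⟩)⟩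
        · rintro ⟨h1, h2⟩
          exact hS.stab hT v ((QuotientGroup.eq_one_iff a).1 h2) h1
      mono := hS.mono
      conj := hS.conj
      edge := hS.edge
      comm := hS.comm }
  exact hS'.mem hC hA hT h1

end PSeries

end

end Pool.Agent.Helper54.TS
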