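import Pool.Agent.T59.G

/-!
# Homomorphisms of groups which act on trees, changed at one orbit of vertices

Let `H` act on a tree, let `s : H → L` be a homomorphism and let `j` be a homomorphism from the
stabilizer of the vertex `v` to `L` which is conjugate to `s` on the stabilizers of the edges at
`v`. Then there is a homomorphism `F : H → L` which is conjugate to `j` on the stabilizer of `v` and
to `s` on the stabilizers of the vertices outside the orbit of `v`.
-/

set_option autoImplicit false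

namespace Pool.Agent.Helper54.TS

open Pool.Agent.Helper29.BA Pool.Agent.Helper29.PA Pool.Agent.T59

section

variable {H V L : Type} [Group H] [Group L] [MulAction H V] {T : SimpleGraph V}

/-- Equivariant functions on the neighbours of a vertex. -/
theorem exists_theta (hT : TreeAct H V T) (v : V) (s : H →* L)
    (j : MulAction.stabilizer H v →* L)
    (hθ : ∀ w, T.Adj v w → ∃ x : L, ∀ n : MulAction.stabilizer H v, (n : H) • w = w →
      j n = x * s n * x⁻¹) :
    ∃ θ : V → L, ∀ w, T.Adj v w → ∀ n : MulAction.stabilizer H v,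
      θ ((n : H) • w) = j n * θ w * (s n)⁻¹ := by
  classical
  let x : V → L := fun w => if h : T.Adj v w then (hθ w h).choose else 1
  have hx : ∀ w, T.Adj v w → ∀ n : MulAction.stabilizer H v, (n : H) • w = w → j n = x w * s n * (x w)⁻¹ := by
    intro w hw
    have h1 : x w = (hθ w hw).choose := dif_pos hw
    rw [h1]
    exact (hθ w hw).choose_spec
  refine ⟨fun w => j (vg (MulAction.stabilizer H v) w) * x (vr (MulAction.stabilizer H v) w) * (s (vg (MulAction.stabilizer H v) w))⁻¹, fun w hw n => ?_⟩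
  have hr : vr (MulAction.stabilizer H v) (n • w) = vr (MulAction.stabilizer H v) w := vr_smul n w
  have h1 : vg (MulAction.stabilizer H v) w • vr (MulAction.stabilizer H v) w = w := vg_smul w
  have h2 : vg (MulAction.stabilizer H v) (n • w) • vr (MulAction.stabilizer H v) w = n • w := by
    have := vg_smul (K := MulAction.stabilizer H v) (n • w)
    rwa [hr] at this
  have hadj : T.Adj v (vr (MulAction.stabilizer H v) w) := by
    have h3 := hT.adj ((vg (MulAction.stabilizer H v) w : H)⁻¹) hw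
    have h4 : ((vg (MulAction.stabilizer H v) w : H)⁻¹) • v = v := by
      rw [inv_smul_eq_iff]
      exact (vg (MulAction.stabilizer H v) w).2.symm
    have h5 : ((vg (MulAction.stabilizer H v) w : H)⁻¹) • w = vr (MulAction.stabilizer H v) w := by
      rw [inv_smul_eq_iff]
      exact h1.symm
    rwa [h4, h5] at h3
  set c : MulAction.stabilizer H v := (n * vg (MulAction.stabilizer H v) w)⁻¹ * vg (MulAction.stabilizer H v) (n • w) with hc
  have hc1 : (c : H) • vr (MulAction.stabilizer H v) w = vr (MulAction.stabilizer H v) w := by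
    change c • vr (MulAction.stabilizer H v) w = vr (MulAction.stabilizer H v) w
    rw [hc, mul_smul, h2, inv_smul_eq_iff, mul_smul, h1]
  have h6 := hx _ hadj c hc1
  have h7 : vg (MulAction.stabilizer H v) (n • w) = n * vg (MulAction.stabilizer H v) w * c := by rw [hc, mul_inv_cancel_left]
  change j (vg (MulAction.stabilizer H v) (n • w)) * x (vr (MulAction.stabilizer H v) (n • w)) * (s (vg (MulAction.stabilizer H v) (n • w)))⁻¹ = _
  rw [hr, h7, map_mul, map_mul, h6]
  have h8 : s ((n * vg (MulAction.stabilizer H v) w * c : MulAction.stabilizer H v) : H) = s n * s (vg (MulAction.stabilizer H v) w) * s c := by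
    rw [Subgroup.coe_mul, Subgroup.coe_mul, map_mul, map_mul]
  rw [h8]
  group

variable (hT : TreeAct H V T) {v : V} (s : H →* L) (θ : V → L)

open Classical in
variable (H) in
/-- An element which maps `v` to `u`. -/
noncomputable def gg (v u : V) : H := if h : ∃ g : H, g • v = u then h.choose else 1

theorem gg_smul {v u : V} (h : ∃ g : H, g • v = u) : gg H v u • v = u := by
  unfold gg
  rw [dif_pos h]
  exact h.choose_spec

open Classical in
variable (v) in
/-- The half edges. -/
noncomputable def tau (u w : V) : L :=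
  if ∃ g : H, g • v = u then s (gg H v u) * θ ((gg H v u)⁻¹ • w) * (s (gg H v u))⁻¹ else 1

theorem tau_neg {u : V} (h : ¬ ∃ g : H, g • v = u) (w : V) : tau v s θ u w = 1 := if_neg h

theorem tau_pos {u : V} (h : ∃ g : H, g • v = u) (w : V) :
    tau v s θ u w = s (gg H v u) * θ ((gg H v u)⁻¹ • w) * (s (gg H v u))⁻¹ := if_pos h

variable {s θ} {j : MulAction.stabilizer H v →* L}

include hT in
theorem tau_turn (hθ : ∀ w, T.Adj v w → ∀ n : MulAction.stabilizer H v,
      θ ((n : H) • w) = j n * θ w * (s n)⁻¹) (h : H) {u w w' : V} (hw : T.Adj u w)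
    (hw' : T.Adj u w') :
    (tau v s θ (h • u) (h • w))⁻¹ * tau v s θ (h • u) (h • w') =
      s h * ((tau v s θ u w)⁻¹ * tau v s θ u w') * (s h)⁻¹ := by
  by_cases hu : ∃ g : H, g • v = u
  · have hhu : ∃ g : H, g • v = h • u := by
      obtain ⟨g, hg⟩ := hu
      exact ⟨h * g, by rw [mul_smul, hg]⟩
    have e1 := gg_smul hu
    have e2 := gg_smul hhu
    set g := gg H v u with hg
    set g' := gg H v (h • u) with hg'
    have hn : g⁻¹ * h⁻¹ * g' ∈ MulAction.stabilizer H v := by
      rw [MulAction.mem_stabilizer_iff, mul_smul, mul_smul, e2, inv_smul_smul, inv_smul_eq_iff, e1]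
    let n : MulAction.stabilizer H v := ⟨_, hn⟩
    have key : ∀ w, T.Adj u w → tau v s θ (h • u) (h • w) =
        s g' * ((j n)⁻¹ * θ (g⁻¹ • w) * s n) * (s g')⁻¹ := by
      intro w hw
      rw [tau_pos s θ hhu, ← hg']
      have h1 : g'⁻¹ • h • w = ((n⁻¹ : MulAction.stabilizer H v) : H) • g⁻¹ • w := by
        rw [Subgroup.coe_inv, ← mul_smul, ← mul_smul]
        congr 1
        change g'⁻¹ * h = (g⁻¹ * h⁻¹ * g')⁻¹ * g⁻¹
        group
      have h2 : T.Adj v (g⁻¹ • w) := by
        have := hT.adj g⁻¹ hw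
        rwa [inv_smul_eq_iff.2 e1.symm] at this
      rw [h1, hθ _ h2, map_inv, Subgroup.coe_inv, map_inv, inv_inv]
    rw [key w hw, key w' hw', tau_pos s θ hu, tau_pos s θ hu, ← hg]
    have h3 : s g' = s h * s g * s n := by
      rw [← map_mul, ← map_mul]
      congr 1
      change g' = h * g * (g⁻¹ * h⁻¹ * g')
      group
    rw [h3]
    group
  · have hhu : ¬ ∃ g : H, g • v = h • u := by
      rintro ⟨g, hg⟩
      exact hu ⟨h⁻¹ * g, by rw [mul_smul, hg, inv_smul_smul]⟩
    rw [tau_neg s θ hhu, tau_neg s θ hhu, tau_neg s θ hu, tau_neg s θ hu]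
    group

/-- **Homomorphisms of groups which act on trees.** -/
theorem exists_hom (hT : TreeAct H V T) (v : V) (s : H →* L)
    (j : MulAction.stabilizer H v →* L)
    (hθ : ∀ w, T.Adj v w → ∃ x : L, ∀ n : MulAction.stabilizer H v, (n : H) • w = w →
      j n = x * s n * x⁻¹) :
    ∃ F : H →* L, (∃ y : L, ∀ n : MulAction.stabilizer H v, F n = y * j n * y⁻¹) ∧
      ∀ u, (∀ g : H, g • v ≠ u) → ∀ n : H, n • u = u → ∃ y : L, F n = y * s n * y⁻¹ := by
  obtain ⟨θ, hθ'⟩ := exists_theta hT v s j hθ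
  by_cases hv : ∃ w0, T.Adj v w0
  swap
  · -- the tree is a point
    have h1 : ∀ u, u = v := by
      intro u
      obtain ⟨p⟩ := hT.tree.connected v u
      cases p with
      | nil => rfl
      | cons h _ => exact absurd ⟨_, h⟩ hv
    refine ⟨⟨⟨fun g => j ⟨g, h1 _⟩, ?_⟩, ?_⟩, ⟨1, fun n => ?_⟩, fun u hu => absurd ?_ (hu 1)⟩
    · exact map_one j
    · intro a b
      exact map_mul j ⟨a, h1 _⟩ ⟨b, h1 _⟩
    · simp
    · rw [one_smul, h1 u]
  obtain ⟨w0, hw0⟩ := hv
  obtain ⟨W, hW⟩ := exists_potential (fun u w => tau v s θ u w * (tau v s θ w u)⁻¹) hT.tree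
    (fun u w _ => by group)
  let Z : V → V → L := fun u w => W u * tau v s θ u w
  have hZ : ∀ u w, T.Adj u w → Z u w = Z w u := by
    intro u w huw
    change W u * tau v s θ u w = W w * tau v s θ w u
    rw [hW u w huw]
    group
  have hrel : ∀ (h : H) {u u' : V} (p : T.Walk u u') (w w' : V), T.Adj u w → T.Adj u' w' →
      (Z (h • u) (h • w))⁻¹ * Z (h • u') (h • w') = s h * ((Z u w)⁻¹ * Z u' w') * (s h)⁻¹ := by
    intro h u u' p
    induction p with
    | nil =>
      intro w w' hw hw'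
      have h1 := tau_turn hT hθ' h hw hw'
      change (W _ * _)⁻¹ * (W _ * _) = s h * ((W _ * _)⁻¹ * (W _ * _)) * (s h)⁻¹
      rw [mul_inv_rev, mul_assoc, inv_mul_cancel_left, h1, mul_inv_rev, mul_assoc (_)⁻¹ (_)⁻¹,
        inv_mul_cancel_left]
    | @cons a b c hab p ih =>
      intro w w' hw hw'
      have h1 := tau_turn hT hθ' h hw hab
      have h2 : (Z (h • a) (h • w))⁻¹ * Z (h • a) (h • b) =
          s h * ((Z a w)⁻¹ * Z a b) * (s h)⁻¹ := by
        change (W _ * _)⁻¹ * (W _ * _) = s h * ((W _ * _)⁻¹ * (W _ * _)) * (s h)⁻¹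
        rw [mul_inv_rev, mul_assoc, inv_mul_cancel_left, h1, mul_inv_rev, mul_assoc (_)⁻¹ (_)⁻¹,
          inv_mul_cancel_left]
      have h3 := ih a w' hab.symm hw'
      have h4 : (Z (h • a) (h • w))⁻¹ * Z (h • c) (h • w') =
          ((Z (h • a) (h • w))⁻¹ * Z (h • a) (h • b)) *
            ((Z (h • b) (h • a))⁻¹ * Z (h • c) (h • w')) := by
        rw [hZ _ _ (hT.adj h hab)]
        group
      rw [h4, h2, h3, hZ _ _ hab]
      group
  have hrel' : ∀ (h : H) (u u' w w' : V), T.Adj u w → T.Adj u' w' →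
      (Z (h • u) (h • w))⁻¹ * Z (h • u') (h • w') = s h * ((Z u w)⁻¹ * Z u' w') * (s h)⁻¹ := by
    intro h u u' w w' hw hw'
    obtain ⟨p⟩ := hT.tree.connected u u'
    exact hrel h p w w' hw hw'
  refine ⟨⟨⟨fun h => (Z v w0)⁻¹ * Z (h • v) (h • w0) * s h, ?_⟩, ?_⟩, ⟨(θ w0)⁻¹, fun n => ?_⟩,
    fun u hu n hn => ?_⟩
  · simp
  · intro a b
    change (Z v w0)⁻¹ * Z ((a * b) • v) ((a * b) • w0) * s (a * b) =
      ((Z v w0)⁻¹ * Z (a • v) (a • w0) * s a) * ((Z v w0)⁻¹ * Z (b • v) (b • w0) * s b)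
    have h1 := hrel' a v (b • v) w0 (b • w0) hw0 (hT.adj b hw0)
    rw [mul_smul, mul_smul, map_mul]
    have h2 : (Z v w0)⁻¹ * Z (a • b • v) (a • b • w0) =
        (Z v w0)⁻¹ * Z (a • v) (a • w0) * ((Z (a • v) (a • w0))⁻¹ * Z (a • b • v) (a • b • w0)) := by
      group
    rw [h2, h1]
    group
  · change (Z v w0)⁻¹ * Z ((n : H) • v) ((n : H) • w0) * s n = (θ w0)⁻¹ * j n * (θ w0)⁻¹⁻¹
    have hv : ∃ g : H, g • v = v := ⟨1, one_smul _ _⟩
    have e1 := gg_smul hv
    set g := gg H v v with hg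
    let g1 : MulAction.stabilizer H v := ⟨g, e1⟩
    have key : ∀ w, T.Adj v w → tau v s θ v w = s g * (j g1)⁻¹ * θ w := by
      intro w hw
      rw [tau_pos s θ hv, ← hg]
      have h1 := hθ' w hw g1⁻¹
      rw [Subgroup.coe_inv, map_inv, map_inv, inv_inv] at h1
      change θ (g⁻¹ • w) = (j g1)⁻¹ * θ w * s g at h1
      rw [h1]
      group
    have h2 : (n : H) • v = v := n.2
    have h3 : T.Adj v ((n : H) • w0) := by
      have := hT.adj (n : H) hw0
      rwa [h2] at this
    rw [h2]
    change (W v * tau v s θ v w0)⁻¹ * (W v * tau v s θ v ((n : H) • w0)) * s n = _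
    rw [key w0 hw0, key _ h3, hθ' w0 hw0 n]
    group
  · change ∃ y, (Z v w0)⁻¹ * Z (n • v) (n • w0) * s n = y * s n * y⁻¹
    have hu' : ∃ w, T.Adj u w := by
      obtain ⟨p⟩ := hT.tree.connected u v
      cases p with
      | nil => exact absurd (one_smul H v) (hu 1)
      | cons h _ => exact ⟨_, h⟩
    obtain ⟨w, hw⟩ := hu'
    refine ⟨(Z v w0)⁻¹ * Z u w, ?_⟩
    have h1 := hrel' n u v w w0 hw hw0
    have hno : ¬ ∃ g : H, g • v = u := fun ⟨g, hg⟩ => hu g hg
    have h2 : Z (n • u) (n • w) = Z u w := by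
      rw [hn]
      change W u * tau v s θ u (n • w) = W u * tau v s θ u w
      rw [tau_neg s θ hno, tau_neg s θ hno]
    rw [h2] at h1
    have h3 : Z (n • v) (n • w0) = Z u w * (s n * ((Z u w)⁻¹ * Z v w0) * (s n)⁻¹) := by
      rw [← h1, mul_inv_cancel_left]
    rw [h3]
    group

end

end Pool.Agent.Helper54.TS
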