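import Pool.Agent.Helper54.TS.Ret

/-!
# Homomorphisms which are injective on vertex stabilizers
-/

set_option autoImplicit false

namespace Pool.Agent.Helper54.TS

open Pool.Agent.Helper29.BA Pool.Agent.Helper29.PA Pool.Agent.T59

variable {C : ∀ (G : Type) [Group G], Prop}

section

/-- Homomorphisms of normal subgroups of finite index extend up to kernels. -/
theorem exists_of_finiteIndex (hC : ClosedClass C) {H B : Type} [Group H] [Group B]
    (P : Subgroup H) [hPn : P.Normal] [P.FiniteIndex] (f : P →* B) (hB : C B) :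
    ∃ (B' : Type) (_ : Group B') (f' : H →* B'), C B' ∧
      ∀ h, f' h = 1 → ∃ hP : h ∈ P, f ⟨h, hP⟩ = 1 := by
  have hcj : ∀ (g : H) {h : H}, h ∈ P → g⁻¹ * h * g ∈ P := by
    intro g h hh
    have := hPn.conj_mem h hh g⁻¹
    rwa [inv_inv] at this
  let Φ : P →* (H → B) :=
    { toFun := fun p g => f ⟨g⁻¹ * p * g, hcj g p.2⟩
      map_one' := by
        funext g
        have : (⟨g⁻¹ * ((1 : P) : H) * g, hcj g (1 : P).2⟩ : P) = 1 := Subtype.ext (by simp)
        rw [this, map_one]
        rfl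
      map_mul' := by
        intro a b
        funext g
        change f _ = f _ * f _
        rw [← map_mul]
        congr 1
        apply Subtype.ext
        change g⁻¹ * (a * b) * g = (g⁻¹ * a * g) * (g⁻¹ * b * g)
        group }
  let Ψ : P →* (H ⧸ P → B) :=
    { toFun := fun p x => Φ p x.out
      map_one' := by
        funext x
        change Φ 1 x.out = 1
        rw [map_one]
        rfl
      map_mul' := by
        intro a b
        funext x
        change Φ (a * b) x.out = Φ a x.out * Φ b x.out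
        rw [map_mul]
        rfl }
  have hker : ∀ p : P, Ψ p = 1 → Φ p = 1 := by
    intro p hp
    funext g
    obtain ⟨q, hq⟩ : ∃ q : P, g = ((g : H ⧸ P).out : H) * q := by
      have h1 : ((g : H ⧸ P).out : H ⧸ P) = (g : H ⧸ P) := QuotientGroup.out_eq' _
      exact ⟨⟨_, QuotientGroup.eq.1 h1⟩, by simp⟩
    have h2 : f ⟨((g : H ⧸ P).out)⁻¹ * p * (g : H ⧸ P).out, hcj _ p.2⟩ = 1 :=
      congrFun hp (g : H ⧸ P)
    generalize (g : H ⧸ P).out = o at hq h2
    subst hq
    change f ⟨(o * q)⁻¹ * p * (o * q), _⟩ = 1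
    have h3 : (⟨(o * q)⁻¹ * p * (o * q), hcj _ p.2⟩ : P) = q⁻¹ * ⟨o⁻¹ * p * o, hcj _ p.2⟩ * q := by
      apply Subtype.ext
      change (o * q)⁻¹ * p * (o * q) = (q : H)⁻¹ * (o⁻¹ * p * o) * q
      group
    rw [h3, map_mul, map_mul, h2, mul_one, map_inv, inv_mul_cancel]
  let R : Subgroup H := Φ.ker.map P.subtype
  have hR : R.Normal := by
    refine ⟨fun n hn g => ?_⟩
    obtain ⟨p, hp, rfl⟩ := hn
    refine ⟨⟨g * p * g⁻¹, hPn.conj_mem p p.2 g⟩, ?_, rfl⟩
    have hp' : Φ p = 1 := hp
    change Φ _ = 1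
    funext x
    have h1 := congrFun hp' (g⁻¹ * x)
    change f ⟨x⁻¹ * (g * p * g⁻¹) * x, _⟩ = 1
    have h2 : (⟨x⁻¹ * (g * p * g⁻¹) * x, hcj x (hPn.conj_mem p p.2 g)⟩ : P) =
        ⟨(g⁻¹ * x)⁻¹ * p * (g⁻¹ * x), hcj _ p.2⟩ := by
      apply Subtype.ext
      change x⁻¹ * (g * p * g⁻¹) * x = (g⁻¹ * x)⁻¹ * p * (g⁻¹ * x)
      group
    rw [h2]
    exact h1
  refine ⟨H ⧸ R, inferInstance, QuotientGroup.mk' R, ?_, ?_⟩
  · have hfi : (P.map (QuotientGroup.mk' R)).FiniteIndex := by
      refine ⟨fun h0 => ?_⟩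
      have h1 := P.index_map_dvd (QuotientGroup.mk'_surjective R)
      rw [h0] at h1
      exact Subgroup.FiniteIndex.index_ne_zero (zero_dvd_iff.1 h1)
    refine hC.finiteIndex _ _ hfi ?_
    let q : P →* P.map (QuotientGroup.mk' R) := (QuotientGroup.mk' R).subgroupMap P
    have hq : Function.Surjective q := (QuotientGroup.mk' R).subgroupMap_surjective P
    have hqk : q.ker = Ψ.ker := by
      ext p
      constructor
      · intro h
        have h1 : ((p : H) : H ⧸ R) = 1 := congrArg Subtype.val (show q p = 1 from h)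
        obtain ⟨p', hp', he⟩ := (QuotientGroup.eq_one_iff (p : H)).1 h1
        have : p' = p := Subtype.ext he
        subst this
        change Ψ p' = 1
        funext x
        exact congrFun (show Φ p' = 1 from hp') x.out
      · intro h
        change q p = 1
        apply Subtype.ext
        exact (QuotientGroup.eq_one_iff (p : H)).2 ⟨p, hker p h, rfl⟩
    have h1 : C (P ⧸ Ψ.ker) := hC.inj (QuotientGroup.kerLift Ψ) (QuotientGroup.kerLift_injective Ψ)
      (hC.pi hB)
    exact hC.iso _ _ ((QuotientGroup.quotientMulEquivOfEq hqk).symm.trans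
      (QuotientGroup.quotientKerEquivOfSurjective q hq)) h1
  · intro h hh
    obtain ⟨p, hp, rfl⟩ := (QuotientGroup.eq_one_iff h).1 hh
    refine ⟨p.2, ?_⟩
    have h1 := congrFun (show Φ p = 1 from hp) 1
    change f ⟨1⁻¹ * p * 1, _⟩ = 1 at h1
    have h2 : (⟨1⁻¹ * (p : H) * 1, hcj 1 p.2⟩ : P) = p := Subtype.ext (by simp)
    rw [h2] at h1
    exact h1

theorem mem_cyclic (hC : ClosedClass C) (G : Type) [Group G] (h : IsCyclic G) : C G := by
  obtain ⟨g, hg⟩ := h.exists_zpow_surjective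
  by_cases hi : Function.Injective (zpowersHom G g)
  · exact hC.iso _ _ (MulEquiv.ofBijective (zpowersHom G g) ⟨hi, fun x => by
      obtain ⟨n, hn⟩ := hg x
      exact ⟨Multiplicative.ofAdd n, hn⟩⟩) hC.int
  · rw [injective_iff_map_eq_one] at hi
    push Not at hi
    obtain ⟨a, ha, ha'⟩ := hi
    have hfin : IsOfFinOrder g := isOfFinOrder_iff_zpow_eq_one.2 ⟨a.toAdd, by simpa using ha', ha⟩
    have : Finite (Subgroup.zpowers g) := Finite.of_equiv _ (finEquivZPowers hfin)
    refine hC.finite G (Finite.of_surjective (fun x : Subgroup.zpowers g => (x : G)) fun x => ?_)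
    obtain ⟨n, hn⟩ := hg x
    exact ⟨⟨x, n, hn⟩, rfl⟩

end

section

variable {H V : Type} [Group H] [MulAction H V] {T : SimpleGraph V}

/-- Extensions of `M` by cyclic groups have homomorphisms to groups of the class which are injective
on the stabilizer of a given vertex. -/
theorem exists_vertex (hC : ClosedClass C) (hT : TreeAct H V T) {M : Subgroup H} [hMn : M.Normal]
    (hgen : M = Subgroup.closure (fixSet M V))
    (hedge : ∀ u w, T.Adj u w → ∀ m ∈ M, m • u = u → m • w = w → m = 1)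
    (hcyc : IsCyclic (H ⧸ M)) (v : V) (hv : C (MulAction.stabilizer H v)) :
    ∃ (B : Type) (_ : Group B) (f : H →* B), C B ∧ ∀ h : H, h • v = v → f h = 1 → h = 1 := by
  by_cases hle : MulAction.stabilizer H v ≤ M
  · -- free orbit modulo `M`
    obtain ⟨F, ⟨y, hy⟩, -⟩ := exists_hom hT v
      ((Monoid.Coprod.inr : (H ⧸ M) →* Monoid.Coprod (MulAction.stabilizer H v) (H ⧸ M)).comp
        (QuotientGroup.mk' M)) Monoid.Coprod.inl (fun w hw => ⟨1, fun n hn => by
          have h1 : n = 1 := Subtype.ext (hedge v w hw n (hle n.2) n.2 hn)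
          rw [h1]
          simp⟩)
    refine ⟨_, inferInstance, F, hC.freeProd _ _ hv (mem_cyclic hC _ hcyc), fun h hh hF => ?_⟩
    have h1 := hy ⟨h, hh⟩
    change F h = _ at h1
    rw [hF] at h1
    have h2 : (Monoid.Coprod.inl (⟨h, hh⟩ : MulAction.stabilizer H v) :
        Monoid.Coprod (MulAction.stabilizer H v) (H ⧸ M)) = 1 := by
      have := congrArg (fun z => y⁻¹ * z * y) h1
      simp only [mul_one, inv_mul_cancel] at this
      rw [this]
      group
    have h3 := Monoid.Coprod.inl_injective (h2.trans (map_one _).symm)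
    exact congrArg Subtype.val h3
  · -- the stabilizer of the orbit has finite index
    obtain ⟨x, hx, hxM⟩ := SetLike.not_le_iff_exists.1 hle
    have hcomm : ∀ a b : H, a * b * a⁻¹ * b⁻¹ ∈ M := by
      intro a b
      rw [← QuotientGroup.eq_one_iff]
      obtain ⟨g, hg⟩ := hcyc.exists_zpow_surjective
      obtain ⟨m, hm⟩ := hg (a : H ⧸ M)
      obtain ⟨n, hn⟩ := hg (b : H ⧸ M)
      change ((a : H ⧸ M)) * b * (a : H ⧸ M)⁻¹ * (b : H ⧸ M)⁻¹ = 1
      rw [← hm, ← hn]
      change g ^ m * g ^ n * (g ^ m)⁻¹ * (g ^ n)⁻¹ = 1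
      rw [← zpow_add, add_comm, zpow_add]
      group
    have hPn : (PP M v).Normal := by
      refine ⟨fun n hn g => ?_⟩
      have h1 := mul_mem (M_le_PP M v (hcomm g n)) hn
      rwa [inv_mul_cancel_right] at h1
    have hfi : (PP M v).FiniteIndex := by
      obtain ⟨g, hg⟩ := hcyc.exists_zpow_surjective
      obtain ⟨t, rfl⟩ := QuotientGroup.mk_surjective g
      obtain ⟨k, hk⟩ := hg (x : H ⧸ M)
      change (t : H ⧸ M) ^ k = x at hk
      have hk0 : k ≠ 0 := by
        rintro rfl
        rw [zpow_zero] at hk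
        exact hxM ((QuotientGroup.eq_one_iff x).1 hk.symm)
      have htk : t ^ k ∈ PP M v := by
        have h1 : (t ^ k)⁻¹ * x ∈ M := QuotientGroup.eq.1 hk
        have h2 := mul_mem (stab_le_PP M v hx) (inv_mem (M_le_PP M v h1))
        have e : x * ((t ^ k)⁻¹ * x)⁻¹ = t ^ k := by group
        rwa [e] at h2
      have hfo : IsOfFinOrder (t : H ⧸ PP M v) :=
        isOfFinOrder_iff_zpow_eq_one.2 ⟨k, hk0, (QuotientGroup.eq_one_iff (t ^ k)).2 htk⟩
      have hfz : Finite (Subgroup.zpowers (t : H ⧸ PP M v)) := Finite.of_equiv _ (finEquivZPowers hfo)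
      have hfin : Finite (H ⧸ PP M v) := by
        refine Finite.of_surjective (fun x : Subgroup.zpowers (t : H ⧸ PP M v) =>
          (x : H ⧸ PP M v)) fun z => ?_
        obtain ⟨h, rfl⟩ := QuotientGroup.mk_surjective z
        obtain ⟨n, hn⟩ := hg (h : H ⧸ M)
        change (t : H ⧸ M) ^ n = h at hn
        refine ⟨⟨(h : H ⧸ PP M v), n, ?_⟩, rfl⟩
        change ((t ^ n : H) : H ⧸ PP M v) = h
        exact QuotientGroup.eq.2 (M_le_PP M v (QuotientGroup.eq.1 hn))
      exact Subgroup.finiteIndex_of_finite_quotient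
    obtain ⟨ρ, hρ⟩ := exists_retract hT hgen hedge v
    obtain ⟨B, _, f, hB, hf⟩ := exists_of_finiteIndex hC (PP M v) ρ hv
    refine ⟨B, _, f, hB, fun h hh hfh => ?_⟩
    obtain ⟨hP, h1⟩ := hf h hfh
    have h2 := hρ ⟨h, hh⟩
    rw [h1] at h2
    exact (congrArg Subtype.val h2).symm

end

end Pool.Agent.Helper54.TS
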